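import Pool.Agent.Q164.RK.Scheme

/-! If the equality of coded open sets is Borel, then it is `G_δ`. -/

set_option autoImplicit false
set_option linter.unusedSectionVars false

namespace Q164.RK

open Topology Filter MeasureTheory TopologicalSpace

universe u

/-- The open set coded by `x`. -/
def code {X : Type u} (U : ℕ → Set X) (x : ℕ → ℕ) : Set X := ⋃ n, U (x n)

/-- The relation `x` and `y` code the same open set. -/
def E {X : Type u} (U : ℕ → Set X) : Set ((ℕ → ℕ) × (ℕ → ℕ)) := {p | code U p.1 = code U p.2}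

section

variable {X : Type u} [TopologicalSpace X] (U : ℕ → Set X)

/-- the sets `d` of names containing all the names of some point of `U n` -/
def A (n : ℕ) : Set (ℕ → Bool) := {d | ∃ x ∈ U n, ∀ m, x ∈ U m → d m = true}

variable {U}

lemma subset_code_iff (n : ℕ) (y : ℕ → ℕ) :
    ¬ U n ⊆ code U y ↔ ∃ e ∈ A U n, ∀ k, e (y k) = false := by
  classical
  constructor
  · intro h
    obtain ⟨x, hx, hxy⟩ := Set.not_subset.1 h
    refine ⟨fun m => decide (x ∈ U m), ⟨x, hx, fun m hm => by simp [hm]⟩, fun k => ?_⟩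
    have : x ∉ U (y k) := fun hk => hxy (Set.mem_iUnion.2 ⟨k, hk⟩)
    simp [this]
  · rintro ⟨e, ⟨x, hx, hxe⟩, he⟩ hsub
    obtain ⟨k, hk⟩ := Set.mem_iUnion.1 (hsub hx)
    have h1 := hxe _ hk
    rw [he k] at h1
    exact absurd h1 (by simp)

lemma continuous_eval : Continuous (fun p : (ℕ → Bool) × (ℕ → ℕ) => fun k => p.1 (p.2 k)) := by
  refine continuous_pi fun k => ?_
  rw [continuous_iff_continuousAt]
  intro p
  have h1 : Continuous (fun p : (ℕ → Bool) × (ℕ → ℕ) => p.2 k) := by fun_prop
  have h2 : ∀ᶠ p' in 𝓝 p, p'.2 k = p.2 k := by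
    have := h1.continuousAt (x := p)
    have h3 : {p.2 k} ∈ 𝓝 (p.2 k) := isOpen_discrete _ |>.mem_nhds rfl
    exact this h3
  have h3 : ContinuousAt (fun p' : (ℕ → Bool) × (ℕ → ℕ) => p'.1 (p.2 k)) p := by
    have : Continuous (fun p' : (ℕ → Bool) × (ℕ → ℕ) => p'.1 (p.2 k)) := by fun_prop
    exact this.continuousAt
  refine h3.congr ?_
  filter_upwards [h2] with p' hp'
  rw [hp']

lemma isClosed_proj {C : Set (ℕ → Bool)} (hC : IsClosed C) :
    IsClosed {y : ℕ → ℕ | ∃ e ∈ C, ∀ k, e (y k) = false} := by
  have h1 : IsClosed {p : (ℕ → Bool) × (ℕ → ℕ) | p.1 ∈ C ∧ ∀ k, p.1 (p.2 k) = false} := by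
    have : {p : (ℕ → Bool) × (ℕ → ℕ) | p.1 ∈ C ∧ ∀ k, p.1 (p.2 k) = false} =
        Prod.fst ⁻¹' C ∩
        (fun p : (ℕ → Bool) × (ℕ → ℕ) => fun k => p.1 (p.2 k)) ⁻¹' {fun _ => false} := by
      ext p
      simp [funext_iff]
    rw [this]
    exact (hC.preimage continuous_fst).inter (isClosed_singleton.preimage continuous_eval)
  have h2 := (isClosedMap_snd_of_compactSpace (X := ℕ → Bool) (Y := ℕ → ℕ)) _ h1
  convert h2 using 1
  ext y
  simp [and_assoc]

/-- if all the `A n` are `F_σ`, then `E` is `G_δ` -/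
lemma isGδ_E (h : ∀ n, IsFs (A U n)) : IsGδ (E U) := by
  choose C hC hCc hCA using h
  have key : ∀ n (y : ℕ → ℕ), ¬ U n ⊆ code U y ↔ ∃ c ∈ C n, ∃ e ∈ c, ∀ k, e (y k) = false := by
    intro n y
    rw [subset_code_iff, hCA n]
    constructor
    · rintro ⟨e, ⟨c, hc, hec⟩, he⟩; exact ⟨c, hc, e, hec, he⟩
    · rintro ⟨c, hc, e, hec, he⟩; exact ⟨e, ⟨c, hc, hec⟩, he⟩
  -- the complement is a countable union of closed sets
  have hE : E U = ⋂ q : (ℕ × ℕ), ⋂ c ∈ C q.2,
      ({p : (ℕ → ℕ) × (ℕ → ℕ) | p.1 q.1 = q.2 ∧ ∃ e ∈ c, ∀ k, e (p.2 k) = false}ᶜ ∩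
      {p : (ℕ → ℕ) × (ℕ → ℕ) | p.2 q.1 = q.2 ∧ ∃ e ∈ c, ∀ k, e (p.1 k) = false}ᶜ) := by
    ext p
    simp only [Set.mem_iInter, Set.mem_inter_iff, Set.mem_compl_iff, Set.mem_ofPred_eq, not_and]
    constructor
    · intro hp q c hc
      have hp' : code U p.1 = code U p.2 := hp
      constructor
      · intro hq he
        refine (key q.2 p.2).2 ⟨c, hc, he⟩ ?_
        rw [← hp', ← hq]
        exact Set.subset_iUnion (fun n => U (p.1 n)) q.1
      · intro hq he
        refine (key q.2 p.1).2 ⟨c, hc, he⟩ ?_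
        rw [hp', ← hq]
        exact Set.subset_iUnion (fun n => U (p.2 n)) q.1
    · intro hp
      show code U p.1 = code U p.2
      apply Set.Subset.antisymm
      · refine Set.iUnion_subset fun n => ?_
        by_contra hcon
        obtain ⟨c, hc, he⟩ := (key _ _).1 hcon
        exact (hp (n, p.1 n) c hc).1 rfl he
      · refine Set.iUnion_subset fun n => ?_
        by_contra hcon
        obtain ⟨c, hc, he⟩ := (key _ _).1 hcon
        exact (hp (n, p.2 n) c hc).2 rfl he
  rw [hE]
  refine IsGδ.iInter fun q => IsGδ.biInter (hC q.2) fun c hc => IsOpen.isGδ ?_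
  have hcl := isClosed_proj (hCc q.2 c hc)
  refine IsOpen.inter ?_ ?_
  · rw [isOpen_compl_iff]
    have h1 : Continuous (fun p : (ℕ → ℕ) × (ℕ → ℕ) => p.1 q.1) := by fun_prop
    exact ((isClosed_discrete ({q.2} : Set ℕ)).preimage h1).inter (hcl.preimage continuous_snd)
  · rw [isOpen_compl_iff]
    have h1 : Continuous (fun p : (ℕ → ℕ) × (ℕ → ℕ) => p.2 q.1) := by fun_prop
    exact ((isClosed_discrete ({q.2} : Set ℕ)).preimage h1).inter (hcl.preimage continuous_fst)

/-- if `E` is Borel then so is every `A n` -/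
lemma measurableSet_A (hE : MeasurableSet (E U)) (n : ℕ) : MeasurableSet (A U n) := by
  classical
  set cons : (ℕ → ℕ) → (ℕ → ℕ) := fun y k => Nat.casesOn k n (fun j => y j) with hcons
  have hconsc : Continuous cons := by
    refine continuous_pi fun k => ?_
    cases k with
    | zero => exact continuous_const
    | succ j => exact continuous_apply j
  have hR : MeasurableSet {y : ℕ → ℕ | U n ⊆ code U y} := by
    have : {y : ℕ → ℕ | U n ⊆ code U y} = (fun y => (cons y, y)) ⁻¹' (E U) := by
      ext y
      have hcode : code U (cons y) = U n ∪ code U y := by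
        ext x
        simp only [code, Set.mem_iUnion, Set.mem_union]
        constructor
        · rintro ⟨k, hk⟩
          cases k with
          | zero => left; exact hk
          | succ j => right; exact ⟨j, hk⟩
        · rintro (h | ⟨j, hj⟩)
          · exact ⟨0, h⟩
          · exact ⟨j + 1, hj⟩
      show U n ⊆ code U y ↔ code U (cons y) = code U y
      rw [hcode, Set.union_eq_right]
    rw [this]
    exact (hconsc.prodMk continuous_id).measurable hE
  set enum : ℕ → (ℕ → Bool) → (ℕ → ℕ) := fun m d k => if d k = false then k else m with henum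
  have henumc : ∀ m, Continuous (enum m) := by
    intro m
    refine continuous_pi fun k => ?_
    exact (continuous_of_discreteTopology (f := fun b : Bool => if b = false then k else m)).comp
      (continuous_apply k)
  have hmem : ∀ m (d : ℕ → Bool), d m = false →
      (d ∈ A U n ↔ ¬ U n ⊆ code U (enum m d)) := by
    intro m d hm
    rw [subset_code_iff]
    constructor
    · intro hd
      refine ⟨d, hd, fun k => ?_⟩
      simp only [henum]
      split_ifs with h
      · exact h
      · exact hm
    · rintro ⟨e, ⟨x, hx, hxe⟩, he⟩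
      refine ⟨x, hx, fun q hq => ?_⟩
      by_contra hcon
      have hcon' : d q = false := by simpa using hcon
      have h1 := he q
      simp only [henum, hcon', if_true] at h1
      rw [hxe q hq] at h1
      exact absurd h1 (by simp)
  have hsplit : A U n = (⋃ m, {d | d m = false} ∩ (enum m ⁻¹' {y | U n ⊆ code U y})ᶜ) ∪
      (A U n ∩ {fun _ => true}) := by
    ext d
    simp only [Set.mem_union, Set.mem_iUnion, Set.mem_inter_iff, Set.mem_compl_iff,
      Set.mem_preimage, Set.mem_ofPred_eq, Set.mem_singleton_iff]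
    constructor
    · intro hd
      by_cases hall : d = fun _ => true
      · right; exact ⟨hd, hall⟩
      · left
        have : ∃ m, d m = false := by
          by_contra hcon
          push Not at hcon
          apply hall
          funext m
          simpa using hcon m
        obtain ⟨m, hm⟩ := this
        exact ⟨m, hm, (hmem m d hm).1 hd⟩
    · rintro (⟨m, hm, hd⟩ | ⟨hd, -⟩)
      · exact (hmem m d hm).2 hd
      · exact hd
  rw [hsplit]
  refine MeasurableSet.union (MeasurableSet.iUnion fun m => MeasurableSet.inter ?_ ?_) ?_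
  · have h1 : Continuous (fun d : ℕ → Bool => d m) := by fun_prop
    exact ((isClosed_discrete ({false} : Set Bool)).preimage h1).measurableSet
  · exact ((henumc m).measurable hR).compl
  · exact ((Set.finite_singleton _).subset Set.inter_subset_right).measurableSet

/-- `s` and all its suffixes belong to `T` -/
def inT (T : List ℕ → Bool) (s : List ℕ) : Prop := ∀ t, t <:+ s → T t = true

open Classical in
/-- the set of names attached to the tree `T` -/
noncomputable def dT (U : ℕ → Set X) (b : List ℕ → (ℕ → Bool)) (T : List ℕ → Bool) : ℕ → Bool :=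
  fun p => decide (∀ k, ∃ s, inT T s ∧ ∀ q < k, U p ⊆ U q → b s q = true)

lemma dT_iff {b : List ℕ → (ℕ → Bool)} {T : List ℕ → Bool} {p : ℕ} :
    dT U b T p = true ↔ ∀ k, ∃ s, inT T s ∧ ∀ q < k, U p ⊆ U q → b s q = true := by
  simp [dT]

lemma measurable_dT (b : List ℕ → (ℕ → Bool)) : Measurable (dT U b) := by
  rw [measurable_pi_iff]
  intro p
  refine measurable_to_bool ?_
  have h1 : (fun T => dT U b T p) ⁻¹' {true} =
      ⋂ k, ⋃ s, {T | inT T s ∧ ∀ q < k, U p ⊆ U q → b s q = true} := by
    ext T
    simp only [Set.mem_preimage, Set.mem_singleton_iff, Set.mem_iInter, Set.mem_iUnion,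
      Set.mem_ofPred_eq]
    exact dT_iff
  rw [h1]
  refine MeasurableSet.iInter fun k => MeasurableSet.iUnion fun s => ?_
  have h2 : {T : List ℕ → Bool | inT T s ∧ ∀ q < k, U p ⊆ U q → b s q = true} =
      (⋂ t, {T | t <:+ s → T t = true}) ∩ {T | ∀ q < k, U p ⊆ U q → b s q = true} := by
    ext T; simp [inT]
  rw [h2]
  refine MeasurableSet.inter (MeasurableSet.iInter fun t => ?_) (MeasurableSet.const _)
  by_cases ht : t <:+ s
  · have : {T : List ℕ → Bool | t <:+ s → T t = true} = (fun T => T t) ⁻¹' {true} := by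
      ext T; simp [ht]
    rw [this]
    exact measurable_pi_apply t (MeasurableSet.singleton _)
  · have : {T : List ℕ → Bool | t <:+ s → T t = true} = Set.univ := by
      ext T; simp [ht]
    rw [this]
    exact MeasurableSet.univ

/-- the main lemma: `dT T ∈ A n` iff `T` has an infinite branch -/
lemma dT_mem_iff (hU : IsTopologicalBasis (Set.range U)) {n : ℕ} {b : List ℕ → (ℕ → Bool)}
    (h1 : ∀ s, b s ∉ A U n)
    (h2 : ∀ (s : List ℕ) (i : ℕ) (t : List ℕ), (i :: s) <:+ t → ∀ q < i, b t q = b s q)
    (h3 : ∀ β : ℕ → ℕ, ∃ a ∈ A U n, ∀ m, ∀ q < m, b (br β m) q = a q) (T : List ℕ → Bool) :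
    dT U b T ∈ A U n ↔ T ∈ IF := by
  constructor
  · rintro ⟨x, hx, hxd⟩
    -- shrinking neighbourhoods
    have hp : ∀ j : ℕ, ∃ p, x ∈ U p ∧ ∀ q ≤ j, x ∈ U q → U p ⊆ U q := by
      intro j
      classical
      have hopen : IsOpen (⋂ q ∈ (Finset.range (j + 1)).filter (fun q => x ∈ U q), U q) :=
        isOpen_biInter_finset fun q _ => hU.isOpen ⟨q, rfl⟩
      have hxm : x ∈ ⋂ q ∈ (Finset.range (j + 1)).filter (fun q => x ∈ U q), U q := by
        simp
      obtain ⟨_, ⟨p, rfl⟩, hxp, hsub⟩ := hU.exists_subset_of_mem_open hxm hopen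
      refine ⟨p, hxp, fun q hq hxq => hsub.trans ?_⟩
      exact Set.biInter_subset_of_mem (by simp [hxq]; omega)
    choose p hxp hpsub using hp
    have hs : ∀ j, ∃ s, inT T s ∧ ∀ q < j, U (p j) ⊆ U q → b s q = true := fun j =>
      dT_iff.1 (hxd (p j) (hxp j)) j
    choose s hsT hsb using hs
    have hkey : ∀ q, x ∈ U q → ∀ j, q < j → b (s j) q = true := fun q hq j hj =>
      hsb j q hj (hpsub j q hj.le hq)
    by_contra hT
    -- the nodes below infinitely many `s j`
    set S : Set (List ℕ) := {t | {j | t <:+ s j}.Infinite} with hS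
    have hnil : [] ∈ S := by
      have : {j | ([] : List ℕ) <:+ s j} = Set.univ := by
        ext j; simp [List.nil_suffix]
      show {j | ([] : List ℕ) <:+ s j}.Infinite
      rw [this]
      exact Set.infinite_univ
    have hmax : ∃ t ∈ S, ∀ i, (i :: t) ∉ S := by
      by_contra hcon
      push Not at hcon
      choose! g hg using hcon
      set β : ℕ → ℕ := fun m => g (Nat.rec (motive := fun _ => List ℕ) [] (fun _ l => g l :: l) m)
        with hβ
      have hbr : ∀ m, br β m = Nat.rec (motive := fun _ => List ℕ) [] (fun _ l => g l :: l) m := by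
        intro m
        induction m with
        | zero => rfl
        | succ m ih =>
          show β m :: br β m = g _ :: _
          rw [ih]
      have hmem : ∀ m, br β m ∈ S := by
        intro m
        induction m with
        | zero => exact hnil
        | succ m ih =>
          have : br β (m + 1) = g (br β m) :: br β m := by
            show β m :: br β m = _
            rw [hbr m]
          rw [this]
          exact hg _ ih
      apply hT
      refine ⟨β, fun m => ?_⟩
      obtain ⟨j, hj⟩ := (hmem m).nonempty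
      exact hsT j _ hj
    obtain ⟨t, ht, htmax⟩ := hmax
    apply h1 t
    refine ⟨x, hx, fun q hq => ?_⟩
    have hfin : (Set.Iic q ∪ ⋃ i ∈ Finset.range (q + 1), {j | (i :: t) <:+ s j}).Finite := by
      refine (Set.finite_Iic q).union (Set.Finite.biUnion (Finset.finite_toSet _) fun i _ => ?_)
      exact Set.not_infinite.1 (htmax i)
    obtain ⟨j, hj, hjn⟩ := (ht.sdiff hfin).nonempty
    simp only [Set.mem_union, Set.mem_Iic, Set.mem_iUnion, Finset.mem_range, Set.mem_ofPred_eq,
      not_or, not_le, not_exists] at hjn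
    have hb := hkey q hq j hjn.1
    have hjt : t <:+ s j := hj
    rw [← hb]
    -- `s j = t` or `s j` extends `i :: t` with `i > q`
    obtain ⟨l, hl⟩ := hjt
    rcases List.eq_nil_or_concat l with rfl | ⟨l', i, rfl⟩
    · rw [List.nil_append] at hl
      rw [hl]
    · have hsuf : (i :: t) <:+ s j := ⟨l', by rw [← hl]; simp⟩
      have hiq : q < i := by
        by_contra hcon
        exact hjn.2 i (by omega) hsuf
      exact (h2 t i (s j) hsuf q hiq).symm
  · rintro ⟨β, hβ⟩
    obtain ⟨a, ⟨x, hx, hxa⟩, ha⟩ := h3 β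
    refine ⟨x, hx, fun p hp => ?_⟩
    rw [dT_iff]
    intro k
    refine ⟨br β k, ?_, fun q hq hpq => ?_⟩
    · intro t ht
      obtain ⟨m, rfl⟩ := suffix_br ht
      exact hβ m
    · rw [ha k q hq]
      exact hxa q (hpq hp)

/-- If `E` is Borel then `E` is `G_δ`. -/
theorem isGδ_of_measurableSet (hU : IsTopologicalBasis (Set.range U))
    (hE : MeasurableSet (E U)) : IsGδ (E U) := by
  refine isGδ_E fun n => ?_
  by_contra hF
  have hA := measurableSet_A hE n
  have hP : PolishSpace (ℕ → Bool) := {}
  obtain ⟨b, h1, h2, h3⟩ := exists_scheme (MeasurableSet.analyticSet hA) hF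
  apply IF_not_borel
  have : (IF : Set (List ℕ → Bool)) = dT U b ⁻¹' (A U n) := by
    ext T
    exact (dT_mem_iff hU h1 h2 h3 T).symm
  rw [this]
  exact measurable_dT b hA

end

end Q164.RK
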