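import Pool.Agent.Q164.RK.WF

/-! A Hurewicz scheme for an analytic set that is not `F_σ`. -/

set_option autoImplicit false

namespace Q164.RK

open Topology Filter MeasureTheory

/-- the first `n` entries of `x` -/
def pre (x : ℕ → ℕ) (n : ℕ) : List ℕ := (List.range n).map x

lemma length_pre (x : ℕ → ℕ) (n : ℕ) : (pre x n).length = n := by simp [pre]

lemma getElem_pre (x : ℕ → ℕ) (n i : ℕ) (h : i < (pre x n).length) : (pre x n)[i] = x i := by
  simp [pre]

lemma pre_eq_iff (x x' : ℕ → ℕ) (n : ℕ) : pre x n = pre x' n ↔ ∀ i < n, x i = x' i := by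
  constructor
  · intro h i hi
    have h1 : i < (pre x n).length := by rw [length_pre]; exact hi
    have h2 : i < (pre x' n).length := by rw [length_pre]; exact hi
    rw [← getElem_pre x n i h1, ← getElem_pre x' n i h2]
    simp only [h]
  · intro h
    apply List.ext_getElem
    · rw [length_pre, length_pre]
    · intro i h1 h2
      rw [getElem_pre, getElem_pre]
      rw [length_pre] at h1
      exact h i h1

/-- `s` is a countable union of closed sets -/
def IsFs {Z : Type*} [TopologicalSpace Z] (s : Set Z) : Prop :=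
  ∃ C : Set (Set Z), C.Countable ∧ (∀ c ∈ C, IsClosed c) ∧ s = ⋃₀ C

variable (f : (ℕ → ℕ) → (ℕ → Bool)) (A : Set (ℕ → Bool))

/-- the piece with code `τ` is contained in an `F_σ` subset of `A` -/
def Good (τ : List ℕ) : Prop :=
  ∃ C : Set (Set (ℕ → Bool)), C.Countable ∧ (∀ c ∈ C, IsClosed c ∧ c ⊆ A) ∧
    ∀ w, pre w τ.length = τ → f w ∈ ⋃₀ C

variable {f A}

lemma exists_point (τ : List ℕ) (h : ¬ Good f A τ) :
    ∃ b : ℕ → Bool, b ∉ A ∧ ∀ k, ∃ w, pre w τ.length = τ ∧ (∀ m, ¬ Good f A (pre w m)) ∧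
      ∀ q < k, f w q = b q := by
  classical
  set Ns : Set (ℕ → ℕ) := {w | ∀ m, ¬ Good f A (pre w m)} with hNs
  set C₀ : Set (ℕ → Bool) := closure (f '' {w | pre w τ.length = τ ∧ w ∈ Ns}) with hC₀
  have h1 : ¬ C₀ ⊆ A := by
    intro hsub
    apply h
    have hch : ∀ σ : List ℕ, ∃ C : Set (Set (ℕ → Bool)), C.Countable ∧
        (∀ c ∈ C, IsClosed c ∧ c ⊆ A) ∧
        (Good f A σ → ∀ w, pre w σ.length = σ → f w ∈ ⋃₀ C) := by
      intro σ
      by_cases hg : Good f A σ
      · obtain ⟨C, a1, a2, a3⟩ := hg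
        exact ⟨C, a1, a2, fun _ => a3⟩
      · exact ⟨∅, Set.countable_empty, by simp, fun hg' => absurd hg' hg⟩
    choose C hC1 hC2 hC3 using hch
    refine ⟨insert C₀ (⋃ σ, C σ), (Set.countable_iUnion hC1).insert _, ?_, ?_⟩
    · intro c hc
      rcases Set.mem_insert_iff.1 hc with rfl | hc
      · exact ⟨isClosed_closure, hsub⟩
      · obtain ⟨σ, hσ⟩ := Set.mem_iUnion.1 hc
        exact hC2 σ c hσ
    · intro w hw
      by_cases hwN : w ∈ Ns
      · exact ⟨C₀, Set.mem_insert _ _, subset_closure ⟨w, ⟨hw, hwN⟩, rfl⟩⟩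
      · have : ∃ m, Good f A (pre w m) := by
          by_contra hcon
          push Not at hcon
          exact hwN hcon
        obtain ⟨m, hm⟩ := this
        obtain ⟨c, hc, hfc⟩ := hC3 (pre w m) hm w (by rw [length_pre])
        exact ⟨c, Set.mem_insert_of_mem _ (Set.mem_iUnion.2 ⟨_, hc⟩), hfc⟩
  obtain ⟨b, hb, hbA⟩ := Set.not_subset.1 h1
  refine ⟨b, hbA, fun k => ?_⟩
  have hopen : IsOpen {d : ℕ → Bool | ∀ q < k, d q = b q} := by
    have : {d : ℕ → Bool | ∀ q < k, d q = b q} =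
        ⋂ q ∈ Finset.range k, (fun d : ℕ → Bool => d q) ⁻¹' {b q} := by
      ext d; simp
    rw [this]
    exact isOpen_biInter_finset fun q _ => (isOpen_discrete _).preimage (continuous_apply q)
  obtain ⟨_, hd, ⟨w, ⟨hw1, hw2⟩, rfl⟩⟩ := mem_closure_iff.1 hb _ hopen (fun q _ => rfl)
  exact ⟨w, hw1, hw2, hd⟩

/-- local constancy of `f` up to precision `k` -/
lemma exists_cyl (hf : Continuous f) (w : ℕ → ℕ) (k : ℕ) :
    ∃ m, ∀ w', (∀ i < m, w' i = w i) → ∀ q < k, f w' q = f w q := by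
  have hopen : IsOpen {d : ℕ → Bool | ∀ q < k, d q = f w q} := by
    have : {d : ℕ → Bool | ∀ q < k, d q = f w q} =
        ⋂ q ∈ Finset.range k, (fun d : ℕ → Bool => d q) ⁻¹' {f w q} := by
      ext d; simp
    rw [this]
    exact isOpen_biInter_finset fun q _ => (isOpen_discrete _).preimage (continuous_apply q)
  have h1 : f ⁻¹' {d : ℕ → Bool | ∀ q < k, d q = f w q} ∈ 𝓝 w :=
    (hopen.preimage hf).mem_nhds (fun q _ => rfl)
  obtain ⟨I, u, hI, hu, hsub⟩ : ∃ (I : Finset ℕ) (u : ℕ → Set ℕ), (∀ i ∈ I, u i ∈ 𝓝 (w i)) ∧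
      True ∧ (I : Set ℕ).pi u ⊆ f ⁻¹' {d : ℕ → Bool | ∀ q < k, d q = f w q} := by
    rw [nhds_pi, Filter.mem_pi'] at h1
    obtain ⟨I, u, h2, h3⟩ := h1
    exact ⟨I, u, fun i _ => h2 i, trivial, h3⟩
  refine ⟨I.sup id + 1, fun w' hw' => ?_⟩
  have : w' ∈ (I : Set ℕ).pi u := by
    intro i hi
    have h3 : i ≤ I.sup id := Finset.le_sup (f := id) hi
    rw [hw' i (by omega)]
    exact mem_of_mem_nhds (hI i hi)
  exact hsub this

/-- the node data: a point `z` and a length `m` such that the piece is not good -/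
def Node (f : (ℕ → ℕ) → (ℕ → Bool)) (A : Set (ℕ → Bool)) : Type :=
  {p : (ℕ → ℕ) × ℕ // ¬ Good f A (pre p.1 p.2)}

lemma exists_step (hf : Continuous f) (p : Node f A) :
    ∃ b : ℕ → Bool, b ∉ A ∧ ∀ k, ∃ p' : Node f A, p.1.2 < p'.1.2 ∧
      (∀ i < p.1.2, p'.1.1 i = p.1.1 i) ∧
      ∀ w, (∀ i < p'.1.2, w i = p'.1.1 i) → ∀ q < k, f w q = b q := by
  obtain ⟨b, hb, h⟩ := exists_point _ p.2
  refine ⟨b, hb, fun k => ?_⟩
  obtain ⟨w, hw1, hw2, hw3⟩ := h k
  obtain ⟨m, hm⟩ := exists_cyl hf w k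
  refine ⟨⟨(w, max m (p.1.2 + 1)), hw2 _⟩, ?_, ?_, ?_⟩
  · show p.1.2 < max m (p.1.2 + 1)
    have := le_max_right m (p.1.2 + 1)
    omega
  · rw [length_pre, pre_eq_iff] at hw1
    exact hw1
  · intro w' hw' q hq
    rw [hm w' (fun i hi => hw' i (lt_of_lt_of_le hi (le_max_left _ _))) q hq]
    exact hw3 q hq

/-- The Hurewicz scheme. -/
theorem exists_scheme {A : Set (ℕ → Bool)} (hA : AnalyticSet A) (hF : ¬ IsFs A) :
    ∃ b : List ℕ → (ℕ → Bool), (∀ s, b s ∉ A) ∧
      (∀ (s : List ℕ) (i : ℕ) (t : List ℕ), (i :: s) <:+ t → ∀ q < i, b t q = b s q) ∧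
      (∀ β : ℕ → ℕ, ∃ a ∈ A, ∀ n, ∀ q < n, b (br β n) q = a q) := by
  rw [AnalyticSet] at hA
  rcases hA with rfl | ⟨f, hf, hr⟩
  · exact absurd ⟨∅, Set.countable_empty, by simp, by simp⟩ hF
  have h0 : ¬ Good f A [] := by
    rintro ⟨C, h1, h2, h3⟩
    apply hF
    refine ⟨C, h1, fun c hc => (h2 c hc).1, Set.Subset.antisymm ?_ ?_⟩
    · intro d hd
      rw [← hr] at hd
      obtain ⟨w, rfl⟩ := hd
      exact h3 w rfl
    · exact Set.sUnion_subset fun c hc => (h2 c hc).2
  choose bb hbA nx hlen hext hcl using fun p : Node f A => exists_step hf p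
  let D : List ℕ → Node f A := fun s =>
    List.rec (motive := fun _ => Node f A) ⟨(fun _ => 0, 0), h0⟩
      (fun i s p => nx p (i + s.length + 1)) s
  have hD : ∀ i s, D (i :: s) = nx (D s) (i + s.length + 1) := fun i s => rfl
  -- the pieces are nested
  have hnest : ∀ {s t : List ℕ}, s <:+ t → (D s).1.2 ≤ (D t).1.2 ∧
      ∀ i < (D s).1.2, (D t).1.1 i = (D s).1.1 i := by
    intro s t
    induction t with
    | nil =>
      intro h
      rw [List.suffix_nil] at h
      subst h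
      exact ⟨le_rfl, fun _ _ => rfl⟩
    | cons j t ih =>
      intro h
      rcases List.suffix_cons_iff.mp h with h | h
      · rw [h]; exact ⟨le_rfl, fun _ _ => rfl⟩
      · obtain ⟨h1, h2⟩ := ih h
        rw [hD]
        refine ⟨h1.trans (hlen _ _).le, fun i hi => ?_⟩
        rw [hext _ _ i (lt_of_lt_of_le hi h1), h2 i hi]
  -- points of the closure of a piece
  have hb : ∀ (t : List ℕ) (k : ℕ), ∃ w, (∀ i < (D t).1.2, w i = (D t).1.1 i) ∧
      ∀ q < k, f w q = bb (D t) q := by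
    intro t k
    refine ⟨(nx (D t) k).1.1, hext _ _, ?_⟩
    exact hcl (D t) k _ fun _ _ => rfl
  refine ⟨fun s => bb (D s), fun s => hbA _, ?_, ?_⟩
  · intro s i t hst q hq
    obtain ⟨w, hw1, hw2⟩ := hb t (q + 1)
    show bb (D t) q = bb (D s) q
    rw [← hw2 q (Nat.lt_succ_self q)]
    obtain ⟨h1, h2⟩ := hnest hst
    refine hcl (D s) (i + s.length + 1) w (fun j hj => ?_) q (by omega)
    have hj' : j < (D (i :: s)).1.2 := hj
    rw [hw1 j (lt_of_lt_of_le hj' h1)]
    exact h2 j hj'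
  · intro β
    have hmono : ∀ {m n}, m ≤ n → br β m <:+ br β n := by
      intro m n hmn
      induction n with
      | zero =>
        have : m = 0 := by omega
        subst this; exact List.suffix_refl _
      | succ n ih =>
        rcases Nat.lt_or_ge n m with h | h
        · have : m = n + 1 := by omega
          subst this; exact List.suffix_refl _
        · exact (ih h).trans (List.suffix_cons _ _)
    have hlen' : ∀ n, n ≤ (D (br β n)).1.2 := by
      intro n
      induction n with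
      | zero => exact Nat.zero_le _
      | succ n ih =>
        have := hlen (D (br β n)) (β n + (br β n).length + 1)
        have h2 : (D (br β (n + 1))).1.2 = (nx (D (br β n)) (β n + (br β n).length + 1)).1.2 := rfl
        omega
    set w : ℕ → ℕ := fun i => (D (br β (i + 1))).1.1 i with hw
    have hwn : ∀ n, ∀ i < (D (br β n)).1.2, w i = (D (br β n)).1.1 i := by
      intro n i hi
      have a1 := (hnest (hmono (le_max_left n (i + 1)))).2 i hi
      have a2 := (hnest (hmono (le_max_right n (i + 1)))).2 i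
        (lt_of_lt_of_le (Nat.lt_succ_self i) (hlen' (i + 1)))
      show (D (br β (i + 1))).1.1 i = _
      rw [← a2, a1]
    refine ⟨f w, by rw [← hr]; exact ⟨w, rfl⟩, fun n q hq => ?_⟩
    have h1 : ∀ q < β n + (br β n).length + 1, f w q = bb (D (br β n)) q :=
      hcl (D (br β n)) _ w (hwn (n + 1))
    rw [br_length] at h1
    exact (h1 q (by omega)).symm

end Q164.RK
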