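import Mathlib

/-! The set of trees with an infinite branch is not Borel. -/

set_option autoImplicit false

namespace Q164.RK

open Topology Filter MeasureTheory

/-- the initial segment of length `n` of `b`, in reversed order -/
def br (b : ℕ → ℕ) : ℕ → List ℕ
  | 0 => []
  | n + 1 => b n :: br b n

theorem br_length (b : ℕ → ℕ) : ∀ n, (br b n).length = n
  | 0 => rfl
  | n + 1 => by simp [br, br_length b n]

/-- the set of `T` that have an infinite branch -/
def IF : Set (List ℕ → Bool) := {T | ∃ b : ℕ → ℕ, ∀ n, T (br b n) = true}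

theorem br_inj {y b : ℕ → ℕ} : ∀ {n : ℕ}, br y n = br b n → ∀ k, k < n → y k = b k
  | 0, _, k, hk => absurd hk (Nat.not_lt_zero _)
  | n + 1, h, k, hk => by
    unfold br at h
    rw [List.cons.injEq] at h
    rcases Nat.lt_or_ge k n with h1 | h1
    · exact br_inj h.2 k h1
    · have : k = n := by omega
      rw [this]; exact h.1

theorem suffix_br {b : ℕ → ℕ} : ∀ {n : ℕ} {t : List ℕ}, t <:+ br b n → ∃ m, t = br b m
  | 0, t, h => ⟨0, by
      have h' : t <:+ [] := h
      rw [List.suffix_nil] at h'; rw [h']; rfl⟩
  | n + 1, t, h => by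
    have h' : t <:+ (b n :: br b n) := h
    rcases List.suffix_cons_iff.mp h' with h | h
    · exact ⟨n + 1, h⟩
    · exact suffix_br h

section

variable (f : (ℕ → ℕ) → (List ℕ → Bool))

open Classical in
/-- finite stages of the diagonal tree -/
noncomputable def TN : ℕ → (List ℕ → Bool)
  | 0 => fun _ => false
  | n + 1 => fun s => decide (∃ y : ℕ → ℕ, br y s.length = s ∧
      ∀ u : List ℕ, Encodable.encode u < s.length → f y u = TN n u)

theorem TN_stable : ∀ (n m : ℕ) (s : List ℕ), Encodable.encode s < n → Encodable.encode s < m →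
    TN f n s = TN f m s
  | 0, _, _, h, _ => absurd h (Nat.not_lt_zero _)
  | _ + 1, 0, _, _, h => absurd h (Nat.not_lt_zero _)
  | n + 1, m + 1, s, h1, h2 => by
    have h3 := Encodable.length_le_encode s
    have h4 : ∀ u : List ℕ, Encodable.encode u < s.length → TN f n u = TN f m u := by
      intro u hu
      exact TN_stable n m u (by omega) (by omega)
    unfold TN
    congr 1
    apply propext
    constructor
    · rintro ⟨y, hy, hy'⟩
      exact ⟨y, hy, fun u hu => (hy' u hu).trans (h4 u hu)⟩
    · rintro ⟨y, hy, hy'⟩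
      exact ⟨y, hy, fun u hu => (hy' u hu).trans (h4 u hu).symm⟩

/-- the diagonal tree -/
noncomputable def TF (s : List ℕ) : Bool := TN f (Encodable.encode s + 1) s

theorem TF_iff (s : List ℕ) : TF f s = true ↔ ∃ y : ℕ → ℕ, br y s.length = s ∧
      ∀ u : List ℕ, Encodable.encode u < s.length → f y u = TF f u := by
  have h3 := Encodable.length_le_encode s
  have h4 : ∀ u : List ℕ, Encodable.encode u < s.length →
      TN f (Encodable.encode s) u = TF f u := by
    intro u hu
    exact TN_stable f _ _ u (by omega) (by omega)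
  have h5 : TF f s = TN f (Encodable.encode s + 1) s := rfl
  rw [h5]
  unfold TN
  simp only [decide_eq_true_eq]
  constructor
  · rintro ⟨y, hy, hy'⟩
    exact ⟨y, hy, fun u hu => (hy' u hu).trans (h4 u hu)⟩
  · rintro ⟨y, hy, hy'⟩
    exact ⟨y, hy, fun u hu => (hy' u hu).trans (h4 u hu).symm⟩

end

theorem not_analytic : ¬ AnalyticSet (IFᶜ : Set (List ℕ → Bool)) := by
  intro h
  rw [AnalyticSet] at h
  rcases h with h | ⟨f, hf, hr⟩
  · have : (fun _ => false : List ℕ → Bool) ∈ (IFᶜ : Set (List ℕ → Bool)) := by
      rintro ⟨b, hb⟩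
      exact absurd (hb 0) (by simp)
    rw [h] at this
    exact this
  · by_cases hT : TF f ∈ IF
    · obtain ⟨b, hb⟩ := hT
      choose y hy1 hy2 using fun n => (TF_iff f (br b n)).mp (hb n)
      have hlim : Tendsto y atTop (𝓝 b) := by
        rw [tendsto_pi_nhds]
        intro k
        apply tendsto_const_nhds.congr'
        filter_upwards [eventually_gt_atTop k] with n hn
        have h1 := hy1 n
        rw [br_length] at h1
        exact (br_inj h1 k hn).symm
      have h2 : Tendsto (fun n => f (y n)) atTop (𝓝 (f b)) := (hf.tendsto b).comp hlim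
      have h3 : f b = TF f := by
        funext u
        rw [tendsto_pi_nhds] at h2
        refine tendsto_nhds_unique (h2 u) ?_
        apply tendsto_const_nhds.congr'
        filter_upwards [eventually_gt_atTop (Encodable.encode u)] with n hn
        exact (hy2 n u (by rw [br_length]; exact hn)).symm
      have h4 : f b ∈ (IFᶜ : Set (List ℕ → Bool)) := by
        rw [← hr]; exact ⟨b, rfl⟩
      rw [h3] at h4
      exact h4 ⟨b, hb⟩
    · have h1 : TF f ∈ Set.range f := by rw [hr]; exact hT
      obtain ⟨y, hy⟩ := h1
      apply hT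
      refine ⟨y, fun n => ?_⟩
      rw [TF_iff]
      exact ⟨y, by rw [br_length], fun u _ => by rw [hy]⟩

theorem IF_not_borel : ¬ MeasurableSet (IF : Set (List ℕ → Bool)) := by
  intro h
  have _ : PolishSpace (List ℕ → Bool) := {}
  exact not_analytic (MeasurableSet.analyticSet h.compl)

end Q164.RK
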